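import Pool.Agent.H97.L.T3997aac3.Q97.RS.Pos
set_option autoImplicit false
set_option linter.unusedSectionVars false

/-! Norms on balls of Fourier transforms of bounded densities. -/

namespace Pool.Agent.Q193.RD

open MeasureTheory Set Metric Filter Topology
open scoped ENNReal NNReal RealInnerProductSpace
open Pool.Agent.Q97.RS (ch Fh)

variable {V : Type*} [NormedAddCommGroup V] [InnerProductSpace ℝ V] [FiniteDimensional ℝ V]
  [MeasurableSpace V] [BorelSpace V]

/-- Bounded measurable functions. -/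
def Bd (g : V → ℂ) : Prop := Measurable g ∧ ∃ M : ℝ, ∀ x, ‖g x‖ ≤ M

lemma Bd.add {g h : V → ℂ} (hg : Bd g) (hh : Bd h) : Bd (g + h) := by
  obtain ⟨h1, M, hM⟩ := hg
  obtain ⟨h2, N, hN⟩ := hh
  exact ⟨h1.add h2, M + N, fun x => (norm_add_le _ _).trans (add_le_add (hM x) (hN x))⟩

lemma Bd.smul {g : V → ℂ} (hg : Bd g) (c : ℂ) : Bd (c • g) := by
  obtain ⟨h1, M, hM⟩ := hg
  refine ⟨h1.const_smul c, ‖c‖ * M, fun x => ?_⟩
  rw [Pi.smul_apply, norm_smul]
  exact mul_le_mul_of_nonneg_left (hM x) (norm_nonneg c)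

lemma Bd.sub {g h : V → ℂ} (hg : Bd g) (hh : Bd h) : Bd (g - h) := by
  have := hg.add (hh.smul (-1))
  rwa [neg_one_smul, ← sub_eq_add_neg] at this

lemma Bd.zero : Bd (0 : V → ℂ) := ⟨measurable_const, 0, fun x => by simp⟩

lemma Bd.sum {ι : Type*} (s : Finset ι) {g : ι → V → ℂ} (hg : ∀ i ∈ s, Bd (g i)) :
    Bd (∑ i ∈ s, g i) := by
  classical
  induction s using Finset.induction_on with
  | empty => simpa using Bd.zero
  | insert i s hi ih =>
    rw [Finset.sum_insert hi]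
    exact (hg i (Finset.mem_insert_self _ _)).add
      (ih fun j hj => hg j (Finset.mem_insert_of_mem hj))

variable (μ : Measure V) [IsFiniteMeasure μ]

lemma Bd.int {g : V → ℂ} (hg : Bd g) (ξ : V) : Integrable (fun x => ch x ξ * g x) μ :=
  Pool.Agent.Q97.RS.Fh_int μ hg.1 hg.2.choose_spec ξ

lemma Bd.integrable {g : V → ℂ} (hg : Bd g) : Integrable g μ :=
  Integrable.of_bound hg.1.aestronglyMeasurable hg.2.choose (Eventually.of_forall hg.2.choose_spec)

lemma Fh_add {g h : V → ℂ} (hg : Bd g) (hh : Bd h) : Fh μ (g + h) = Fh μ g + Fh μ h := by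
  funext ξ
  unfold Fh
  rw [Pi.add_apply, ← integral_add (hg.int μ ξ) (hh.int μ ξ)]
  refine integral_congr_ae (Eventually.of_forall fun x => ?_)
  simp only [Pi.add_apply]
  ring

lemma Fh_smul (g : V → ℂ) (c : ℂ) : Fh μ (c • g) = c • Fh μ g := by
  funext ξ
  unfold Fh
  rw [Pi.smul_apply, smul_eq_mul, ← integral_const_mul]
  refine integral_congr_ae (Eventually.of_forall fun x => ?_)
  simp only [Pi.smul_apply, smul_eq_mul]
  ring

lemma Fh_sm {g : V → ℂ} (hg : Bd g) : StronglyMeasurable (Fh μ g) :=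
  Pool.Agent.Q97.RS.Fh_meas μ hg.1

lemma Fh_le_int (g : V → ℂ) (ξ : V) : ‖Fh μ g ξ‖ ≤ ∫ x, ‖g x‖ ∂μ := by
  refine (norm_integral_le_integral_norm _).trans (le_of_eq ?_)
  refine integral_congr_ae (Eventually.of_forall fun x => ?_)
  simp only [norm_mul, Pool.Agent.Q97.RS.ch_norm, one_mul]

/-- The `L^q` norm of the Fourier transform on the ball of radius `R`. -/
noncomputable def nR (q : ℝ≥0∞) (R : ℝ) (g : V → ℂ) : ℝ≥0∞ :=
  eLpNorm (Fh μ g) q (volume.restrict (ball 0 R))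

lemma nR_add {q : ℝ≥0∞} (hq : 1 ≤ q) (R : ℝ) {g h : V → ℂ} (hg : Bd g) (hh : Bd h) :
    nR μ q R (g + h) ≤ nR μ q R g + nR μ q R h := by
  unfold nR
  rw [Fh_add μ hg hh]
  exact eLpNorm_add_le (Fh_sm μ hg).aestronglyMeasurable (Fh_sm μ hh).aestronglyMeasurable hq

lemma nR_smul (q : ℝ≥0∞) (R : ℝ) (g : V → ℂ) (c : ℂ) :
    nR μ q R (c • g) = ‖c‖ₑ * nR μ q R g := by
  unfold nR
  rw [Fh_smul, eLpNorm_const_smul]

lemma nR_neg (q : ℝ≥0∞) (R : ℝ) (g : V → ℂ) : nR μ q R (-g) = nR μ q R g := by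
  rw [← neg_one_smul ℂ g, nR_smul]
  simp

lemma nR_zero (q : ℝ≥0∞) (R : ℝ) : nR μ q R (0 : V → ℂ) = 0 := by
  have := nR_smul μ q R (0 : V → ℂ) 0
  simpa using this

lemma nR_sum {q : ℝ≥0∞} (hq : 1 ≤ q) (R : ℝ) {ι : Type*} (s : Finset ι) {g : ι → V → ℂ}
    (hg : ∀ i ∈ s, Bd (g i)) : nR μ q R (∑ i ∈ s, g i) ≤ ∑ i ∈ s, nR μ q R (g i) := by
  classical
  induction s using Finset.induction_on with
  | empty => simp [nR_zero]
  | insert i s hi ih =>
    rw [Finset.sum_insert hi, Finset.sum_insert hi]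
    refine (nR_add μ hq R (hg i (Finset.mem_insert_self _ _))
      (Bd.sum s fun j hj => hg j (Finset.mem_insert_of_mem hj))).trans ?_
    gcongr
    exact ih fun j hj => hg j (Finset.mem_insert_of_mem hj)

lemma nR_le (q : ℝ≥0∞) (R : ℝ) (g : V → ℂ) :
    nR μ q R g ≤ volume (ball (0 : V) R) ^ q.toReal⁻¹ * ENNReal.ofReal (∫ x, ‖g x‖ ∂μ) := by
  unfold nR
  have := eLpNorm_le_of_ae_bound (p := q) (μ := (volume : Measure V).restrict (ball 0 R))
    (f := Fh μ g) (C := ∫ x, ‖g x‖ ∂μ) (Eventually.of_forall (Fh_le_int μ g))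
  rwa [Measure.restrict_apply_univ] at this

lemma nR_top (q : ℝ≥0∞) (R : ℝ) (g : V → ℂ) : nR μ q R g < ⊤ := by
  refine (nR_le μ q R g).trans_lt (ENNReal.mul_lt_top ?_ ENNReal.ofReal_lt_top)
  exact ENNReal.rpow_lt_top_of_nonneg (inv_nonneg.2 ENNReal.toReal_nonneg) measure_ball_lt_top.ne

lemma nR_mono (q : ℝ≥0∞) {R S : ℝ} (h : R ≤ S) (g : V → ℂ) : nR μ q R g ≤ nR μ q S g := by
  unfold nR
  exact eLpNorm_mono_measure _ (Measure.restrict_mono (ball_subset_ball h) le_rfl)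

lemma nR_congr (q : ℝ≥0∞) (R : ℝ) {g h : V → ℂ} (hgh : g =ᵐ[μ] h) : nR μ q R g = nR μ q R h := by
  have : Fh μ g = Fh μ h := by
    funext ξ
    unfold Fh
    refine integral_congr_ae ?_
    filter_upwards [hgh] with x hx
    rw [hx]
  unfold nR
  rw [this]

/-- Rotation. -/
lemma nR_rot (L : V ≃ₗᵢ[ℝ] V) (hL : MeasurePreserving L μ μ) (q : ℝ≥0∞) (R : ℝ) {g : V → ℂ}
    (hg : Bd g) : nR μ q R (g ∘ L) = nR μ q R g := by
  have h1 : Fh μ (g ∘ L) = Fh μ g ∘ L := by
    funext ξ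
    simp only [Function.comp_apply]
    unfold Fh
    have h2 : ∀ x, ch x ξ * (g ∘ L) x = (fun y => ch y (L ξ) * g y) (L x) := by
      intro x
      simp only [Function.comp_apply, ch]
      rw [L.inner_map_map]
    simp_rw [h2]
    exact hL.integral_comp L.toHomeomorph.measurableEmbedding (fun y => ch y (L ξ) * g y)
  unfold nR
  rw [h1]
  have h3 : MeasurePreserving L (volume.restrict (ball (0 : V) R))
      (volume.restrict (ball (0 : V) R)) := by
    have h4 := L.measurePreserving.restrict_preimage (s := ball (0 : V) R) measurableSet_ball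
    have h5 : L ⁻¹' (ball (0 : V) R) = ball 0 R := by
      ext x
      simp
    rwa [h5] at h4
  exact eLpNorm_comp_measurePreserving (Fh_sm μ hg).aestronglyMeasurable h3

/-- Translation. -/
lemma nR_mod (q : ℝ≥0∞) (R : ℝ) (η : V) {g : V → ℂ} (hg : Bd g) :
    eLpNorm (Fh μ g) q (volume.restrict (ball η R)) = nR μ q R (fun x => ch x η * g x) := by
  have h1 : Fh μ (fun x => ch x η * g x) = Fh μ g ∘ (fun ξ => ξ + η) := by
    funext ξ
    simp only [Function.comp_apply]
    unfold Fh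
    refine integral_congr_ae (Eventually.of_forall fun x => ?_)
    simp only
    rw [Pool.Agent.Q97.RS.ch_add]
    ring
  unfold nR
  rw [h1]
  have h4 := (measurePreserving_add_right (volume : Measure V) η).restrict_preimage
    (s := ball η R) measurableSet_ball
  have h5 : (fun x : V => x + η) ⁻¹' (ball η R) = ball 0 R := by
    ext x
    simp [mem_ball, dist_eq_norm]
  rw [h5] at h4
  exact (eLpNorm_comp_measurePreserving (Fh_sm μ hg).aestronglyMeasurable h4).symm

lemma Bd.mod {g : V → ℂ} (hg : Bd g) (η : V) : Bd (fun x => ch x η * g x) := by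
  obtain ⟨h1, M, hM⟩ := hg
  refine ⟨(Pool.Agent.Q97.RS.ch_cont' η).measurable.mul h1, M, fun x => ?_⟩
  rw [norm_mul, Pool.Agent.Q97.RS.ch_norm, one_mul]
  exact hM x

/-- Doubling: the number of the unit balls which cover the ball of radius `2`. -/
theorem doubling (V : Type*) [NormedAddCommGroup V] [InnerProductSpace ℝ V]
    [FiniteDimensional ℝ V] [MeasurableSpace V] [BorelSpace V] : ∃ F : Finset V,
    ∀ (μ : Measure V) [IsFiniteMeasure μ] (q : ℝ≥0∞), 1 ≤ q → ∀ R : ℝ, 0 < R →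
    ∀ g : V → ℂ, Bd g → nR μ q (2 * R) g ≤ ∑ c ∈ F, nR μ q R (fun x => ch x (R • c) * g x) := by
  obtain ⟨t, -, htf, htc⟩ := (isCompact_closedBall (0 : V) 2).elim_finite_subcover_image
    (b := univ) (c := fun c : V => ball c 1) (fun _ _ => isOpen_ball)
    (fun x _ => mem_iUnion₂.2 ⟨x, mem_univ _, mem_ball_self one_pos⟩)
  refine ⟨htf.toFinset, fun μ _ q hq R hR g hg => ?_⟩
  have h1 : ball (0 : V) (2 * R) ⊆ ⋃ c ∈ htf.toFinset, ball (R • c) R := by
    intro x hx
    have h2 : R⁻¹ • x ∈ closedBall (0 : V) 2 := by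
      rw [mem_closedBall, dist_zero_right, norm_smul, Real.norm_eq_abs, abs_of_pos (inv_pos.2 hR)]
      rw [mem_ball, dist_zero_right] at hx
      rw [inv_mul_le_iff₀ hR]
      linarith
    obtain ⟨c, hc, hxc⟩ := mem_iUnion₂.1 (htc h2)
    refine mem_iUnion₂.2 ⟨c, htf.mem_toFinset.2 hc, ?_⟩
    rw [mem_ball, dist_eq_norm] at hxc ⊢
    have h3 : x - R • c = R • (R⁻¹ • x - c) := by
      rw [smul_sub, smul_smul, mul_inv_cancel₀ hR.ne', one_smul]
    rw [h3, norm_smul, Real.norm_eq_abs, abs_of_pos hR]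
    nlinarith
  have h2 : nR μ q (2 * R) g ≤ ∑ c ∈ htf.toFinset,
      eLpNorm (Fh μ g) q (volume.restrict (ball (R • c) R)) := by
    unfold nR
    rw [← eLpNorm_indicator_eq_eLpNorm_restrict measurableSet_ball]
    rw [Finset.sum_congr rfl (fun c _ => (eLpNorm_indicator_eq_eLpNorm_restrict
      (f := Fh μ g) (p := q) (μ := (volume : Measure V)) (s := ball (R • c) R)
      measurableSet_ball).symm)]
    have h3 : ∀ x, ‖(ball (0 : V) (2 * R)).indicator (Fh μ g) x‖ ≤
        ‖(∑ c ∈ htf.toFinset, fun y => ‖(ball (R • c) R).indicator (Fh μ g) y‖) x‖ := by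
      intro x
      rw [Finset.sum_apply, Real.norm_eq_abs,
        abs_of_nonneg (Finset.sum_nonneg fun _ _ => norm_nonneg _)]
      by_cases hx : x ∈ ball (0 : V) (2 * R)
      · obtain ⟨c, hc, hxc⟩ := mem_iUnion₂.1 (h1 hx)
        refine le_trans ?_ (Finset.single_le_sum
          (f := fun c => ‖(ball (R • c) R).indicator (Fh μ g) x‖) (fun _ _ => norm_nonneg _) hc)
        rw [indicator_of_mem hx, indicator_of_mem hxc]
      · rw [indicator_of_notMem hx, norm_zero]
        exact Finset.sum_nonneg fun _ _ => norm_nonneg _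
    refine (eLpNorm_mono h3).trans ((eLpNorm_sum_le (fun c _ => ?_) hq).trans (le_of_eq ?_))
    · exact (((Fh_sm μ hg).indicator measurableSet_ball).norm).aestronglyMeasurable
    · exact Finset.sum_congr rfl fun c _ => eLpNorm_norm _
  refine h2.trans (le_of_eq (Finset.sum_congr rfl fun c _ => nR_mod μ q R (R • c) hg))

end Pool.Agent.Q193.RD
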