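import Pool.Agent.H97.L.T3997aac3.Q193.RD.Norms
set_option autoImplicit false
set_option linter.unusedSectionVars false

/-! Densities which are almost extremal for a list of tasks are good. -/

namespace Pool.Agent.Q193.RD

open MeasureTheory Set Metric Filter Topology
open scoped ENNReal NNReal RealInnerProductSpace
open Pool.Agent.Q97.RS (ch Fh)

variable {V : Type*} [NormedAddCommGroup V] [InnerProductSpace ℝ V] [FiniteDimensional ℝ V]
  [MeasurableSpace V] [BorelSpace V]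

lemma Fh_cont (μ : Measure V) [IsFiniteMeasure μ] {g : V → ℂ} (hg : Bd g) :
    Continuous (Fh μ g) := by
  unfold Fh
  obtain ⟨hm, M, hM⟩ := hg
  refine continuous_of_dominated (F := fun (ξ x : V) => ch x ξ * g x) (bound := fun _ => M)
    (fun ξ => ((Pool.Agent.Q97.RS.ch_cont' ξ).measurable.mul hm).aestronglyMeasurable)
    (fun ξ => Eventually.of_forall fun x => ?_) (integrable_const _)
    (Eventually.of_forall fun x => (Pool.Agent.Q97.RS.ch_cont'' x).mul continuous_const)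
  rw [norm_mul, Pool.Agent.Q97.RS.ch_norm, one_mul]
  exact hM x

lemma Fh_zero (μ : Measure V) [IsFiniteMeasure μ] (g : V → ℂ) : Fh μ g 0 = ∫ x, g x ∂μ := by
  unfold Fh
  refine integral_congr_ae (Eventually.of_forall fun x => ?_)
  simp [ch]

/-- the exponent of the task -/
noncomputable def tq (D : ℕ → ℝ≥0∞) (i : ℕ) : ℝ≥0∞ :=
  if i % 2 = 0 then
    (if (i / 2).unpair.2 ≤ (i / 2).unpair.1 + 1 then ex (i / 2).unpair.1 (i / 2).unpair.2 else 1)
  else D (i / 2).unpair.1

/-- the radius of the task -/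
noncomputable def tR (r : ℕ → ℝ) (i : ℕ) : ℝ :=
  if i % 2 = 0 then 2 ^ ((i / 2).unpair.1 + 1) else r i

/-- the property of the density -/
def Good (μ : Measure V) (H : V → ℂ) : Prop :=
  (∀ q : ℝ≥0∞, 1 ≤ q → eLpNorm (Fh μ H) q volume < ⊤ →
    ∀ g : V → ℂ, Bd g → eLpNorm (Fh μ g) q volume < ⊤) ∧
  ∃ C : ℝ, 0 < C ∧ ∀ q : ℝ≥0∞, 1 ≤ q → ∀ R : ℝ, 2 ≤ R → ∀ g : V → ℂ, Measurable g →
    (∀ x, ‖g x‖ ≤ 1) → nR μ q R g ≤ ENNReal.ofReal (C * Real.log R ^ 10) * nR μ q R H

/-- almost extremal for the tasks -/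
def Tasks (μ : Measure V) (q : ℕ → ℝ≥0∞) (R : ℕ → ℝ) (K : ℝ) (H : V → ℂ) : Prop :=
  ∀ (i : ℕ) (g : V → ℂ), Measurable g → (∀ x, ‖g x‖ ≤ 1) →
    nR μ (q i) (R i) g ≤ ENNReal.ofReal (K * ((i : ℝ) + 2) ^ 5) * nR μ (q i) (R i) H

/-- **The tasks which make a density good.** -/
theorem setup (μ : Measure V) [IsFiniteMeasure μ] (hμ : μ univ ≠ 0) :
    ∃ (q : ℕ → ℝ≥0∞) (R : ℕ → ℝ), (∀ i, 1 ≤ q i) ∧ ∀ H : V → ℂ, Bd H →
      ∀ K : ℝ, 0 < K → Tasks μ q R K H → Good μ H := by
  classical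
  -- the failing exponents
  set F : Set ℝ≥0∞ := {q | 1 ≤ q ∧ ∃ g : V → ℂ, Bd g ∧ eLpNorm (Fh μ g) q volume = ⊤} with hF
  obtain ⟨D, hD1, hD2⟩ := cofinal F
  have hD0 : ∀ l, 1 ≤ D l := fun l => (hD1 l).elim (fun h => h.1) (fun h => h.symm.le)
  have hrad : ∀ i : ℕ, ∃ R : ℝ, D (i / 2).unpair.1 ∈ F → ∃ g : V → ℂ, Measurable g ∧
      (∀ x, ‖g x‖ ≤ 1) ∧ ENNReal.ofReal (((i : ℝ) + 2) ^ 5 * (i / 2).unpair.2) ≤
        nR μ (D (i / 2).unpair.1) R g := by
    intro i
    by_cases hDF : D (i / 2).unpair.1 ∈ F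
    · obtain ⟨-, g, hg, hgt⟩ := hDF
      obtain ⟨hm, M, hM⟩ := id hg
      have hM0 : 0 ≤ M := (norm_nonneg _).trans (hM 0)
      set c : ℂ := ((1 / (M + 1) : ℝ) : ℂ) with hc
      have hcn : ‖c‖ = 1 / (M + 1) := by
        rw [hc, Complex.norm_real, Real.norm_eq_abs, abs_of_nonneg (by positivity)]
      have hg1 : ∀ x, ‖(c • g) x‖ ≤ 1 := by
        intro x
        rw [Pi.smul_apply, norm_smul, hcn, one_div, inv_mul_le_iff₀ (by positivity)]
        linarith [hM x]
      have htop : eLpNorm (Fh μ (c • g)) (D (i / 2).unpair.1) volume = ⊤ := by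
        rw [Fh_smul, eLpNorm_const_smul, hgt, ENNReal.mul_top]
        rw [Ne, enorm_eq_zero, ← norm_eq_zero, hcn]
        positivity
      by_contra hcon
      push Not at hcon
      have h1 : ∀ n : ℕ, eLpNorm (Fh μ (c • g)) (D (i / 2).unpair.1)
          (volume.restrict (ball 0 (n : ℝ))) ≤
          ENNReal.ofReal (((i : ℝ) + 2) ^ 5 * (i / 2).unpair.2) := fun n =>
        ((hcon n).2 (c • g) (hm.const_smul c) hg1).le
      have h2 := exhaust (Fh_sm μ (hg.smul c)) _ _ h1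
      rw [htop, top_le_iff] at h2
      exact ENNReal.ofReal_ne_top h2
    · exact ⟨0, fun h => absurd h hDF⟩
  choose r hr using hrad
  have htq : ∀ i, 1 ≤ tq D i := by
    intro i
    unfold tq
    split_ifs with h1 h2
    · exact ex_one _ _ h2
    · exact le_rfl
    · exact hD0 _
  refine ⟨tq D, tR r, htq, fun H hhb K hK hall => ?_⟩
  obtain ⟨hHm, M, hM⟩ := id hhb
  have hM0 : 0 ≤ M := (norm_nonneg _).trans (hM 0)
  set A : ℝ := M * μ.real univ + 1 with hA
  have hA1 : 1 ≤ A := by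
    have : 0 ≤ μ.real univ := measureReal_nonneg
    have := mul_nonneg hM0 this
    linarith
  have hFA : ∀ ξ, ‖Fh μ H ξ‖ ≤ A := by
    intro ξ
    have h1 := Pool.Agent.Q97.RS.Fh_norm_le μ (g := H) hM ξ
    linarith
  -- comparison of the norms of the density
  have hcmp : ∀ (ν : Measure V) (q q0 : ℝ≥0∞), 1 ≤ q → q ≤ q0 →
      eLpNorm (Fh μ H) q0 ν ≤ max (ENNReal.ofReal A) (eLpNorm (Fh μ H) q ν) := by
    intro ν q q0 hq hqq
    set c : ℂ := ((A⁻¹ : ℝ) : ℂ) with hc'
    have hcn : ‖c‖ₑ = (ENNReal.ofReal A)⁻¹ := by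
      rw [← ofReal_norm, hc', Complex.norm_real, Real.norm_eq_abs,
        abs_of_nonneg (by positivity), ENNReal.ofReal_inv_of_pos (by linarith)]
    have hA0 : ENNReal.ofReal A ≠ 0 := by
      rw [Ne, ENNReal.ofReal_eq_zero, not_le]
      linarith
    have h1 : ∀ x, ‖(c • Fh μ H) x‖ₑ ≤ 1 := by
      intro x
      rw [Pi.smul_apply, enorm_smul, hcn]
      rw [mul_comm, ← div_eq_mul_inv]
      refine ENNReal.div_le_of_le_mul ?_
      rw [one_mul, ← ofReal_norm]
      exact ENNReal.ofReal_le_ofReal (hFA x)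
    have h2 := up ν h1 hq hqq
    rw [eLpNorm_const_smul, eLpNorm_const_smul, hcn] at h2
    have h3 := mul_le_mul_right h2 (ENNReal.ofReal A)
    rw [← mul_assoc, ENNReal.mul_inv_cancel hA0 ENNReal.ofReal_ne_top, one_mul] at h3
    refine h3.trans (le_of_eq ?_)
    rw [mul_max, mul_one, ← mul_assoc, ENNReal.mul_inv_cancel hA0 ENNReal.ofReal_ne_top, one_mul]
  refine ⟨?_, ?_⟩
  · -- equivalence
    intro q hq hqt g hg
    rw [lt_top_iff_ne_top]
    intro hgt
    obtain ⟨l, hl1, hl2⟩ := hD2 q ⟨hq, g, hg, hgt⟩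
    have h1 : eLpNorm (Fh μ H) (D l) volume < ⊤ := by
      refine (hcmp volume q (D l) hq hl1).trans_lt ?_
      rw [max_lt_iff]
      exact ⟨ENNReal.ofReal_lt_top, hqt⟩
    obtain ⟨s, hs⟩ := exists_nat_gt (K * (eLpNorm (Fh μ H) (D l) volume).toReal)
    set i : ℕ := 2 * Nat.pair l s + 1 with hi
    have hi2 : i / 2 = Nat.pair l s := by omega
    have hi3 : i % 2 ≠ 0 := by omega
    have hr1 := hr i
    rw [hi2, Nat.unpair_pair] at hr1
    obtain ⟨g', hg'm, hg'1, hg'2⟩ := hr1 hl2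
    have h2 := hall i g' hg'm hg'1
    have h3 : tq D i = D l := by
      unfold tq
      rw [if_neg hi3, hi2, Nat.unpair_pair]
    have h4 : tR r i = r i := by
      unfold tR
      rw [if_neg hi3]
    rw [h3, h4] at h2
    have h5 := hg'2.trans h2
    have h6 : nR μ (D l) (r i) H ≤ eLpNorm (Fh μ H) (D l) volume :=
      eLpNorm_mono_measure _ Measure.restrict_le_self
    have h7 := h5.trans (mul_le_mul_right h6 _)
    rw [← ENNReal.ofReal_toReal h1.ne, ← ENNReal.ofReal_mul (by positivity),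
      ENNReal.ofReal_le_ofReal_iff (by positivity)] at h7
    have h8 : (0 : ℝ) < ((i : ℝ) + 2) ^ 5 := by positivity
    nlinarith
  · -- the local bounds
    have htask : ∀ k l : ℕ, l ≤ k + 1 → ∀ g : V → ℂ, Measurable g → (∀ x, ‖g x‖ ≤ 1) →
        nR μ (ex k l) (2 ^ (k + 1)) g ≤ ENNReal.ofReal (K * (4 ^ 5 * ((k : ℝ) + 2) ^ 10)) *
          nR μ (ex k l) (2 ^ (k + 1)) H := by
      intro k l hl g hg hg1
      set i : ℕ := 2 * Nat.pair k l with hi
      have hi2 : i / 2 = Nat.pair k l := by omega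
      have hi3 : i % 2 = 0 := by omega
      have h2 := hall i g hg hg1
      have h3 : tq D i = ex k l := by
        unfold tq
        rw [if_pos hi3, hi2, Nat.unpair_pair, if_pos hl]
      have h4 : tR r i = 2 ^ (k + 1) := by
        unfold tR
        rw [if_pos hi3, hi2, Nat.unpair_pair]
      rw [h3, h4] at h2
      refine h2.trans ?_
      gcongr
      have h5 : Nat.pair k l < (k + 2) ^ 2 := by
        refine (Nat.pair_lt_max_add_one_sq k l).trans_le ?_
        refine Nat.pow_le_pow_left ?_ 2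
        have : max k l ≤ k + 1 := max_le (by omega) hl
        omega
      have h6 : (i : ℝ) + 2 ≤ 4 * ((k : ℝ) + 2) ^ 2 := by
        have h7 : i + 2 ≤ 4 * (k + 2) ^ 2 := by
          have : 4 ≤ (k + 2) ^ 2 := by nlinarith
          omega
        exact_mod_cast h7
      calc ((i : ℝ) + 2) ^ 5 ≤ (4 * ((k : ℝ) + 2) ^ 2) ^ 5 :=
            pow_le_pow_left₀ (by positivity) h6 5
        _ = 4 ^ 5 * ((k : ℝ) + 2) ^ 10 := by ring
    -- the transform is not zero
    obtain ⟨z, hz, hI⟩ : ∃ z ∈ ball (0 : V) 2, Fh μ H z ≠ 0 := by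
      by_contra hcon
      push Not at hcon
      have hone : Bd (fun _ : V => (1 : ℂ)) := ⟨measurable_const, 1, fun x => by simp⟩
      have h1 : Fh μ (fun _ : V => (1 : ℂ)) 0 ≠ 0 := by
        rw [Fh_zero, integral_const]
        have h2 : μ.real univ ≠ 0 := by
          rw [measureReal_def, Ne, ENNReal.toReal_eq_zero_iff]
          push Not
          exact ⟨hμ, measure_ne_top _ _⟩
        exact smul_ne_zero h2 one_ne_zero
      obtain ⟨b, hb0, -, hb⟩ := low (Fh_cont μ hone) 0 (mem_ball_self two_pos) h1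
      have h2 : b ≤ ENNReal.ofReal (K * (4 ^ 5 * (((0 : ℕ) : ℝ) + 2) ^ 10)) *
          nR μ (ex 0 0) (2 ^ (0 + 1)) H :=
        (hb (ex 0 0) (ex_one 0 0 (by omega)) (2 ^ (0 + 1)) (by norm_num)).trans
          (htask 0 0 (by omega) (fun _ : V => (1 : ℂ)) measurable_const (fun x => by simp))
      have h3 : nR μ (ex 0 0) (2 ^ (0 + 1)) H = 0 := by
        unfold nR
        have h4 : Fh μ H =ᵐ[volume.restrict (ball 0 (2 ^ (0 + 1)))] 0 := by
          rw [EventuallyEq, ae_restrict_iff' measurableSet_ball]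
          refine Eventually.of_forall fun x hx => ?_
          rw [zero_add, pow_one] at hx
          exact hcon x hx
        rw [eLpNorm_congr_ae h4, eLpNorm_zero]
      rw [h3, mul_zero] at h2
      exact hb0 (le_antisymm h2 bot_le)
    obtain ⟨b, hb0, hbt, hb⟩ := low (Fh_cont μ hhb) z hz hI
    obtain ⟨Cv, hCv, hvol⟩ := mid (V := V)
    obtain ⟨T, hT⟩ := doubling V
    -- comparison of close exponents for the density
    set E : ℝ := max 1 (A / b.toReal) with hE
    have hbp : 0 < b.toReal := ENNReal.toReal_pos hb0 hbt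
    have hE1 : 1 ≤ E := le_max_left _ _
    have hcmp2 : ∀ (q q0 : ℝ≥0∞) (R : ℝ), 1 ≤ q → q ≤ q0 → 2 ≤ R →
        nR μ q0 R H ≤ ENNReal.ofReal E * nR μ q R H := by
      intro q q0 R hq hqq hR
      refine (hcmp _ q q0 hq hqq).trans (max_le ?_ ?_)
      · have h1 := hb q hq R hR
        calc ENNReal.ofReal A ≤ ENNReal.ofReal E * b := by
              conv_rhs => rw [← ENNReal.ofReal_toReal hbt]
              rw [← ENNReal.ofReal_mul (by positivity)]
              refine ENNReal.ofReal_le_ofReal ?_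
              have h2 : A / b.toReal ≤ E := le_max_right _ _
              rwa [div_le_iff₀ hbp] at h2
          _ ≤ _ := mul_le_mul_right h1 _
      · calc eLpNorm (Fh μ H) q (volume.restrict (ball 0 R))
            = 1 * eLpNorm (Fh μ H) q (volume.restrict (ball 0 R)) := (one_mul _).symm
          _ ≤ ENNReal.ofReal E * eLpNorm (Fh μ H) q (volume.restrict (ball 0 R)) := by
              gcongr
              rw [← ENNReal.ofReal_one]
              exact ENNReal.ofReal_le_ofReal hE1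
    have hdy : ∀ (k : ℕ) (q : ℝ≥0∞), 1 ≤ q → ∀ g : V → ℂ, Measurable g → (∀ x, ‖g x‖ ≤ 1) →
        nR μ q (2 ^ (k + 1)) g ≤ ENNReal.ofReal (Cv * (K * (4 ^ 5 * ((k : ℝ) + 2) ^ 10)) * E) *
          nR μ q (2 ^ (k + 1)) H := by
      intro k q hq g hg hg1
      obtain ⟨l, hl, hql, he0, he1⟩ := ex_near k hq
      have hgb : Bd g := ⟨hg, 1, hg1⟩
      have h1 := eLpNorm_le_eLpNorm_mul_rpow_measure_univ
        (μ := (volume : Measure V).restrict (ball 0 (2 ^ (k + 1)))) hql
        (Fh_sm μ hgb).aestronglyMeasurable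
      rw [Measure.restrict_apply_univ] at h1
      have h2R : (2 : ℝ) ≤ 2 ^ (k + 1) := by
        have : (1 : ℝ) ≤ 2 ^ k := one_le_pow₀ (by norm_num)
        rw [pow_succ]
        linarith
      calc nR μ q (2 ^ (k + 1)) g ≤ nR μ (ex k l) (2 ^ (k + 1)) g *
            volume (ball (0 : V) (2 ^ (k + 1))) ^ (1 / q.toReal - 1 / (ex k l).toReal) := h1
        _ ≤ (ENNReal.ofReal (K * (4 ^ 5 * ((k : ℝ) + 2) ^ 10)) *
              (ENNReal.ofReal E * nR μ q (2 ^ (k + 1)) H)) * ENNReal.ofReal Cv := by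
            refine mul_le_mul' ((htask k l hl g hg hg1).trans ?_) (hvol k _ he0 he1)
            exact mul_le_mul_right (hcmp2 q (ex k l) _ hq hql h2R) _
        _ = _ := by
            have hL : 0 ≤ K * (4 ^ 5 * ((k : ℝ) + 2) ^ 10) := by positivity
            generalize K * (4 ^ 5 * ((k : ℝ) + 2) ^ 10) = L at hL
            rw [ENNReal.ofReal_mul (show 0 ≤ Cv * L from mul_nonneg hCv.le hL),
              ENNReal.ofReal_mul hCv.le]
            ring
    refine ⟨(T.card + 1) * (Cv * (K * (4 ^ 5 * 4 ^ 10)) * E), by positivity,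
      fun q hq R hR g hg hg1 => ?_⟩
    obtain ⟨m, hm1, hm2⟩ := exists_nat_pow_near (x := R) (y := 2) (by linarith) (by norm_num)
    have hm0 : m ≠ 0 := by
      rintro rfl
      norm_num at hm2
      linarith
    obtain ⟨k, rfl⟩ := Nat.exists_eq_succ_of_ne_zero hm0
    rw [Nat.succ_eq_add_one] at hm1 hm2
    have hlog : ((k : ℝ) + 2) ≤ 4 * Real.log R := by
      have h1 : Real.log ((2 : ℝ) ^ (k + 1)) ≤ Real.log R :=
        Real.log_le_log (by positivity) hm1
      rw [Real.log_pow] at h1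
      push_cast at h1
      have h2 := Real.log_two_gt_d9
      have h3 : (0 : ℝ) ≤ k := Nat.cast_nonneg k
      nlinarith
    have hlog0 : 0 ≤ Real.log R := Real.log_nonneg (by linarith)
    have hgb : Bd g := ⟨hg, 1, hg1⟩
    have h1 : nR μ q R g ≤ nR μ q (2 * 2 ^ (k + 1)) g := by
      refine nR_mono μ q ?_ g
      rw [pow_succ] at hm2
      linarith
    have h2 := hT μ q hq (2 ^ (k + 1)) (by positivity) g hgb
    have h3 : ∀ c ∈ T, nR μ q (2 ^ (k + 1)) (fun x => ch x ((2 ^ (k + 1) : ℝ) • c) * g x) ≤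
        ENNReal.ofReal (Cv * (K * (4 ^ 5 * ((k : ℝ) + 2) ^ 10)) * E) *
          nR μ q (2 ^ (k + 1)) H := by
      intro c _
      refine hdy k q hq _ (hgb.mod _).1 fun x => ?_
      rw [norm_mul, Pool.Agent.Q97.RS.ch_norm, one_mul]
      exact hg1 x
    have h4 := (h1.trans h2).trans (Finset.sum_le_card_nsmul T _ _ h3)
    refine h4.trans ?_
    rw [nsmul_eq_mul, ← mul_assoc]
    refine mul_le_mul' ?_ (nR_mono μ q hm1 H)
    have h5 : ((T.card : ℕ) : ℝ≥0∞) = ENNReal.ofReal (T.card : ℝ) := by simp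
    rw [h5, ← ENNReal.ofReal_mul (by positivity)]
    refine ENNReal.ofReal_le_ofReal ?_
    have h6 : ((k : ℝ) + 2) ^ 10 ≤ 4 ^ 10 * Real.log R ^ 10 := by
      rw [← mul_pow]
      exact pow_le_pow_left₀ (by positivity) hlog 10
    have h7 : (0 : ℝ) ≤ T.card := Nat.cast_nonneg _
    calc (T.card : ℝ) * (Cv * (K * (4 ^ 5 * ((k : ℝ) + 2) ^ 10)) * E)
        ≤ (T.card : ℝ) * (Cv * (K * (4 ^ 5 * (4 ^ 10 * Real.log R ^ 10))) * E) := by gcongr
      _ ≤ ((T.card : ℝ) + 1) * (Cv * (K * (4 ^ 5 * (4 ^ 10 * Real.log R ^ 10))) * E) := by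
          refine mul_le_mul_of_nonneg_right (by linarith) (by positivity)
      _ = _ := by ring

end Pool.Agent.Q193.RD
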