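import Pool.Agent.H97.L.T3997aac3.Q193.RD.Abs
import Pool.Agent.H97.L.T3997aac3.Q193.RD.Ext
set_option autoImplicit false
set_option linter.unusedSectionVars false

/-! One density which is almost extremal for a sequence of exponents and radii. -/

namespace Pool.Agent.Q193.RD

open MeasureTheory Set Metric Filter Topology
open scoped ENNReal NNReal RealInnerProductSpace ContDiff BoundedContinuousFunction
open Pool.Agent.Q97.RS (ch Fh)

variable {V : Type*} [NormedAddCommGroup V] [InnerProductSpace ℝ V] [FiniteDimensional ℝ V]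
  [MeasurableSpace V] [BorelSpace V]

/-- Points of the sphere which approach `p`. -/
lemma pts (hd : 2 ≤ Module.finrank ℝ V) (p : V) (hp : ‖p‖ = 1) :
    ∃ y : ℕ → V, (∀ m, ‖y m‖ = 1 ∧ y m ≠ p) ∧ Tendsto y atTop (𝓝 p) := by
  obtain ⟨v, hv, hvp⟩ : ∃ v : V, ‖v‖ = 1 ∧ ⟪p, v⟫ = 0 := by
    have h1 : 0 < Module.finrank ℝ (ℝ ∙ p)ᗮ := by
      have h2 := (ℝ ∙ p).finrank_add_finrank_orthogonal
      have h3 := finrank_span_singleton (K := ℝ) (v := p) (by
        intro h0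
        rw [h0, norm_zero] at hp
        exact zero_ne_one hp)
      omega
    obtain ⟨w, hw⟩ := Module.finrank_pos_iff_exists_ne_zero.1 h1
    have hw0 : (w : V) ≠ 0 := by simpa using hw
    refine ⟨‖(w : V)‖⁻¹ • (w : V), ?_, ?_⟩
    · rw [norm_smul, norm_inv, norm_norm, inv_mul_cancel₀ (norm_ne_zero_iff.2 hw0)]
    · rw [inner_smul_right, Submodule.mem_orthogonal_singleton_iff_inner_right.1 w.2, mul_zero]
  have hcont : Continuous fun t : ℝ => Real.cos t • p + Real.sin t • v := by fun_prop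
  refine ⟨fun m => Real.cos (1 / ((m : ℝ) + 1)) • p + Real.sin (1 / ((m : ℝ) + 1)) • v,
    fun m => ⟨?_, ?_⟩, ?_⟩
  · set t : ℝ := 1 / ((m : ℝ) + 1)
    have h1 : ‖Real.cos t • p + Real.sin t • v‖ ^ 2 = 1 := by
      rw [norm_add_sq_real, norm_smul, norm_smul, hp, hv, inner_smul_left, inner_smul_right, hvp]
      simp only [Real.norm_eq_abs, mul_one, sq_abs, mul_zero, add_zero]
      exact Real.cos_sq_add_sin_sq t
    have h2 : (0 : ℝ) ≤ ‖Real.cos t • p + Real.sin t • v‖ := norm_nonneg _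
    nlinarith
  · set t : ℝ := 1 / ((m : ℝ) + 1) with ht
    intro h0
    have ht0 : 0 < t := by positivity
    have ht1 : t ≤ 1 := by
      rw [ht, div_le_one (by positivity)]
      have : (0 : ℝ) ≤ m := Nat.cast_nonneg m
      linarith
    have h1 : ⟪Real.cos t • p + Real.sin t • v, v⟫ = ⟪p, v⟫ := congrArg (fun z => ⟪z, v⟫) h0
    rw [inner_add_left, inner_smul_left, inner_smul_left, hvp, real_inner_self_eq_norm_sq, hv] at h1
    simp only [mul_zero, one_pow, mul_one, zero_add, conj_trivial] at h1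
    have h2 : 0 < Real.sin t := Real.sin_pos_of_pos_of_lt_pi ht0 (by
      have := Real.pi_gt_three
      linarith)
    linarith
  · have h1 : Tendsto (fun m : ℕ => 1 / ((m : ℝ) + 1)) atTop (𝓝 0) :=
      tendsto_one_div_add_atTop_nhds_zero_nat
    have h2 := (hcont.tendsto 0).comp h1
    simp only [Real.cos_zero, Real.sin_zero, one_smul, zero_smul, add_zero] at h2
    exact h2

/-- **The pieces.** -/
theorem pieces (μ : Measure V) [IsFiniteMeasure μ] (hsph : ∀ᵐ x ∂μ, ‖x‖ = 1)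
    (hinv : ∀ L : V ≃ₗᵢ[ℝ] V, MeasurePreserving L μ μ) (hd : 2 ≤ Module.finrank ℝ V) (p : V)
    (hp : ‖p‖ = 1) (wt : ℝ → ℝ) (hwt : Continuous wt) (hwt0 : ∀ r, 0 < r → 0 < wt r)
    (q : ℕ → ℝ≥0∞) (hq : ∀ i, 1 ≤ q i) (R : ℕ → ℝ) :
    ∃ (x : ℕ → V → ℝ) (K : ℝ), 0 < K ∧ (∀ i, ContDiff ℝ ∞ (x i)) ∧ (∀ i z, 0 ≤ x i z) ∧
      (∀ i z, x i z ≤ 1) ∧ (∀ i z, x i z ≤ wt (dist z p)) ∧
      (∀ x0, x0 ≠ p → ∃ δ : ℝ, 0 < δ ∧ ∃ i0 : ℕ, ∀ i, i0 ≤ i → ∀ z ∈ ball x0 δ, x i z = 0) ∧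
      ∀ (i : ℕ) (g : V → ℂ), Measurable g → (∀ x, ‖g x‖ ≤ 1) →
        nR μ (q i) (R i) g ≤ ENNReal.ofReal (K * ((i : ℝ) + 1)) *
          nR μ (q i) (R i) (fun z => (x i z : ℂ)) := by
  classical
  have hwt00 : ∀ r, 0 ≤ r → 0 ≤ wt r := by
    intro r hr
    have h1 : closure (Ioi (0 : ℝ)) ⊆ {r | 0 ≤ wt r} :=
      closure_minimal (fun r hr => (hwt0 r hr).le) (isClosed_le continuous_const hwt)
    rw [closure_Ioi] at h1
    exact h1 hr
  obtain ⟨y, hy, hyp⟩ := pts hd p hp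
  set ρ : ℕ → ℝ := fun m => dist (y m) p / 2 with hρ
  have hρ0 : ∀ m, 0 < ρ m := fun m => half_pos (dist_pos.2 (hy m).2)
  have hρt : Tendsto ρ atTop (𝓝 0) := by
    have := (hyp.dist (tendsto_const_nhds (x := p))).div_const 2
    simpa using this
  have hW : ∀ m, ∃ w : ℝ, 0 < w ∧ w ≤ 1 ∧ ∀ r ∈ Icc (ρ m) (3 * ρ m), w ≤ wt r := by
    intro m
    obtain ⟨r0, hr0, hmin⟩ := (isCompact_Icc (a := ρ m) (b := 3 * ρ m)).exists_isMinOn
      ⟨ρ m, le_rfl, by linarith [hρ0 m]⟩ hwt.continuousOn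
    refine ⟨min (wt r0) 1, lt_min (hwt0 _ ((hρ0 m).trans_le hr0.1)) one_pos, min_le_right _ _,
      fun r hr => (min_le_left _ _).trans (hmin hr)⟩
  choose W hW0 hW1 hWwt using hW
  have hN := fun m => extremal μ hsph hinv (y m) (hy m).1 (hρ0 m)
  choose N hN0 hN1 using hN
  obtain ⟨κ, K, hκ, hK, hB⟩ := slow_choice fun m => N m * (2 / W m)
  have hφ := fun i => hN1 (κ i) (q i) (hq i) (R i)
  choose φ hφ1 hφ2 hφ3 hφ4 using hφ
  -- the pieces
  refine ⟨fun i z => W (κ i) / 2 * φ i z, K, hK, fun i => contDiff_const.mul (hφ1 i),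
    fun i z => ?_, fun i z => ?_, fun i z => ?_, fun x0 hx0p => ?_, fun i g hg hg1 => ?_⟩
  · have h1 := (hφ2 i z).1
    have h3 := hW0 (κ i)
    positivity
  · have h1 := (hφ2 i z).1
    have h2 := (hφ2 i z).2
    have h3 := hW0 (κ i)
    have h4 := hW1 (κ i)
    nlinarith
  · by_cases hz : z ∈ ball (y (κ i)) (ρ (κ i))
    · have h1 : dist z p ∈ Icc (ρ (κ i)) (3 * ρ (κ i)) := by
        rw [mem_ball] at hz
        have h2 := dist_triangle z (y (κ i)) p
        have h3 := dist_triangle (y (κ i)) z p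
        rw [dist_comm (y (κ i)) z] at h3
        have h4 : dist (y (κ i)) p = 2 * ρ (κ i) := by simp only [hρ]; ring
        constructor <;> linarith
      refine le_trans ?_ (hWwt (κ i) _ h1)
      have h2 := (hφ2 i z).2
      have h3 := hW0 (κ i)
      nlinarith
    · simp only [hφ3 i z hz, mul_zero]
      exact hwt00 _ dist_nonneg
  · set δ : ℝ := dist x0 p / 2 with hδ
    have hδ0 : 0 < δ := half_pos (dist_pos.2 hx0p)
    have hev : ∀ᶠ i in atTop, 3 * ρ (κ i) < δ := by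
      have h1 : Tendsto (fun i => 3 * ρ (κ i)) atTop (𝓝 0) := by
        have := (hρt.comp hκ).const_mul 3
        simpa using this
      exact h1.eventually (gt_mem_nhds hδ0)
    obtain ⟨i0, hi0⟩ := eventually_atTop.1 hev
    refine ⟨δ, hδ0, i0, fun j hj z hz => ?_⟩
    have hnot : z ∉ ball (y (κ j)) (ρ (κ j)) := by
      intro hzb
      rw [mem_ball] at hz hzb
      have h1 := hi0 j hj
      have h2 := dist_triangle x0 z p
      have h3 := dist_triangle z (y (κ j)) p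
      have h4 : dist (y (κ j)) p = 2 * ρ (κ j) := by simp only [hρ]; ring
      rw [dist_comm z x0] at hz
      have h5 : dist x0 p = 2 * δ := by rw [hδ]; ring
      linarith
    simp only [hφ3 j z hnot, mul_zero]
  · have htop : ∀ g, nR μ (q i) (R i) g ≠ ⊤ := fun g => (nR_top μ (q i) (R i) g).ne
    set r : (V → ℂ) → ℝ := fun g => (nR μ (q i) (R i) g).toReal with hr
    rw [← ENNReal.toReal_le_toReal (htop g) (ENNReal.mul_ne_top ENNReal.ofReal_ne_top (htop _)),
      ENNReal.toReal_mul, ENNReal.toReal_ofReal (by positivity)]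
    change r g ≤ K * ((i : ℝ) + 1) * r (fun z => ((W (κ i) / 2 * φ i z : ℝ) : ℂ))
    have h1 : r g ≤ N (κ i) * r (fun z => ((φ i z : ℝ) : ℂ)) := by
      have h2 := ENNReal.toReal_mono (ENNReal.mul_ne_top ENNReal.ofReal_ne_top (htop _))
        (hφ4 i g hg hg1)
      rwa [ENNReal.toReal_mul, ENNReal.toReal_ofReal (hN0 _).le] at h2
    have hw := hW0 (κ i)
    have h2 : r (fun z => ((W (κ i) / 2 * φ i z : ℝ) : ℂ)) =
        W (κ i) / 2 * r (fun z => ((φ i z : ℝ) : ℂ)) := by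
      have h3 : (fun z => ((W (κ i) / 2 * φ i z : ℝ) : ℂ)) =
          ((W (κ i) / 2 : ℝ) : ℂ) • (fun z => ((φ i z : ℝ) : ℂ)) := by
        funext z
        simp
      simp only [hr]
      rw [h3, nR_smul, ENNReal.toReal_mul, toReal_enorm, Complex.norm_real, Real.norm_eq_abs,
        abs_of_nonneg (by positivity)]
    rw [h2]
    set X := r (fun z => ((φ i z : ℝ) : ℂ)) with hX
    have hX0 : 0 ≤ X := ENNReal.toReal_nonneg
    have h5 := hB i
    calc r g ≤ N (κ i) * X := h1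
      _ = N (κ i) * (2 / W (κ i)) * (W (κ i) / 2 * X) := by field_simp
      _ ≤ K * ((i : ℝ) + 1) * (W (κ i) / 2 * X) := mul_le_mul_of_nonneg_right h5 (by positivity)

end Pool.Agent.Q193.RD
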