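import Pool.Agent.H97.L.T3997aac3.Q193.RD.Fou
import Pool.Agent.H97.L.T3997aac3.Q193.RD.AbsP
set_option autoImplicit false
set_option linter.unusedSectionVars false

/-! The random densities. -/

namespace Pool.Agent.Q193.RD

open MeasureTheory Set Metric Filter Topology
open scoped ENNReal NNReal RealInnerProductSpace ContDiff
open Pool.Agent.Q97.RS (ch Fh)

variable {V : Type*} [NormedAddCommGroup V] [InnerProductSpace ℝ V] [FiniteDimensional ℝ V]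
  [MeasurableSpace V] [BorelSpace V]

/-- The unit sphere. -/
abbrev Sp (V : Type*) [NormedAddCommGroup V] := sphere (0 : V) 1

open Classical in
/-- Extension by zero. -/
noncomputable def ex0 (G : Sp V → ℂ) (z : V) : ℂ := if h : z ∈ sphere (0 : V) 1 then G ⟨z, h⟩ else 0

lemma ex0_of (G : Sp V → ℂ) (z : Sp V) : ex0 G z = G z := by
  unfold ex0
  rw [dif_pos z.2]

lemma ex0_add (G H : Sp V → ℂ) : ex0 (G + H) = ex0 G + ex0 H := by
  funext z
  unfold ex0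
  rw [Pi.add_apply]
  split_ifs
  · rfl
  · rw [add_zero]

lemma ex0_sub (G H : Sp V → ℂ) : ex0 (G - H) = ex0 G - ex0 H := by
  funext z
  unfold ex0
  rw [Pi.sub_apply]
  split_ifs
  · rfl
  · rw [sub_zero]

lemma ex0_smul (c : ℝ) (G : Sp V → ℂ) : ex0 (c • G) = (c : ℂ) • ex0 G := by
  funext z
  unfold ex0
  rw [Pi.smul_apply]
  split_ifs
  · rw [Pi.smul_apply, Complex.real_smul, smul_eq_mul]
  · rw [smul_zero]

lemma ex0_meas {G : Sp V → ℂ} (hG : Measurable G) : Measurable (ex0 G) := by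
  have h1 : ex0 G = Function.extend Subtype.val G 0 := by
    funext z
    by_cases hz : z ∈ sphere (0 : V) 1
    · have h2 : z = ((⟨z, hz⟩ : Sp V) : V) := rfl
      rw [h2, Subtype.val_injective.extend_apply, ex0_of]
    · rw [Function.extend_apply' _ _ _ (by
        rintro ⟨a, rfl⟩
        exact hz a.2)]
      unfold ex0
      rw [dif_neg hz]
      rfl
  rw [h1]
  exact (MeasurableEmbedding.subtype_coe isClosed_sphere.measurableSet).measurable_extend hG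
    measurable_zero

lemma ex0_norm {G : Sp V → ℂ} {M : ℝ} (hM : 0 ≤ M) (hG : ∀ z, ‖G z‖ ≤ M) (z : V) :
    ‖ex0 G z‖ ≤ M := by
  unfold ex0
  split_ifs
  · exact hG _
  · rwa [norm_zero]

lemma ex0_bd (G : C(Sp V, ℂ)) : Bd (ex0 (G : Sp V → ℂ)) :=
  ⟨ex0_meas G.continuous.measurable, ‖G‖, ex0_norm (norm_nonneg _) fun z => G.norm_coe_le_norm z⟩

/-- The seminorms on the space of continuous densities. -/
noncomputable def PX (μ : Measure V) [IsFiniteMeasure μ] (q : ℝ≥0∞) (hq : 1 ≤ q) (R : ℝ) :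
    Seminorm ℝ C(Sp V, ℂ) :=
  Seminorm.of (fun G => (nR μ q R (ex0 (G : Sp V → ℂ))).toReal)
    (fun G H => by
      rw [ContinuousMap.coe_add, ex0_add,
        ← ENNReal.toReal_add (nR_top μ q R _).ne (nR_top μ q R _).ne]
      exact ENNReal.toReal_mono (ENNReal.add_ne_top.2 ⟨(nR_top μ q R _).ne, (nR_top μ q R _).ne⟩)
        (nR_add μ hq R (ex0_bd G) (ex0_bd H)))
    (fun c G => by
      rw [ContinuousMap.coe_smul, ex0_smul, nR_smul, ENNReal.toReal_mul, toReal_enorm,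
        Complex.norm_real])

lemma PX_apply (μ : Measure V) [IsFiniteMeasure μ] (q : ℝ≥0∞) (hq : 1 ≤ q) (R : ℝ)
    (G : C(Sp V, ℂ)) : PX μ q hq R G = (nR μ q R (ex0 (G : Sp V → ℂ))).toReal := rfl

lemma PX_cont (μ : Measure V) [IsFiniteMeasure μ] (q : ℝ≥0∞) (hq : 1 ≤ q) (R : ℝ) :
    Continuous (PX μ q hq R) := by
  set c : ℝ := (volume (ball (0 : V) R) ^ q.toReal⁻¹).toReal with hc
  have hctop : volume (ball (0 : V) R) ^ q.toReal⁻¹ ≠ ⊤ :=
    (ENNReal.rpow_lt_top_of_nonneg (inv_nonneg.2 ENNReal.toReal_nonneg) measure_ball_lt_top.ne).ne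
  have hc0 : 0 ≤ c := ENNReal.toReal_nonneg
  set A : ℝ := μ.real univ with hA
  have hA0 : 0 ≤ A := measureReal_nonneg
  set cA : ℝ≥0 := ⟨c * A, mul_nonneg hc0 hA0⟩ with hcA
  have hcq : Continuous (cA • normSeminorm ℝ C(Sp V, ℂ)) := by
    have : Continuous fun f : C(Sp V, ℂ) => (c * A) * ‖f‖ := by fun_prop
    exact this
  refine Seminorm.continuous_of_le hcq fun f => ?_
  change (nR μ q R (ex0 (f : Sp V → ℂ))).toReal ≤ (c * A) * ‖f‖
  have h1 := ENNReal.toReal_mono (ENNReal.mul_ne_top hctop ENNReal.ofReal_ne_top)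
    (nR_le μ q R (ex0 (f : Sp V → ℂ)))
  rw [ENNReal.toReal_mul, ENNReal.toReal_ofReal (integral_nonneg fun _ => norm_nonneg _),
    ← hc] at h1
  have h2 : ∫ z, ‖ex0 (f : Sp V → ℂ) z‖ ∂μ ≤ ∫ _, ‖f‖ ∂μ :=
    integral_mono_of_nonneg (Eventually.of_forall fun x => norm_nonneg _) (integrable_const _)
      (Eventually.of_forall (ex0_norm (norm_nonneg _) fun z => f.norm_coe_le_norm z))
  rw [integral_const, smul_eq_mul, ← hA] at h2
  calc _ ≤ c * ∫ z, ‖ex0 (f : Sp V → ℂ) z‖ ∂μ := h1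
    _ ≤ c * (A * ‖f‖) := mul_le_mul_of_nonneg_left h2 hc0
    _ = c * A * ‖f‖ := by ring

/-- The shifted seminorms. -/
noncomputable def PF (μ : Measure V) (q : ℝ≥0∞) (R : ℝ) (f : V → ℂ)
    (G : C(Sp V, ℂ)) : ℝ := (nR μ q R (f + ex0 (G : Sp V → ℂ))).toReal

lemma PF_sub (μ : Measure V) [IsFiniteMeasure μ] (q : ℝ≥0∞) (hq : 1 ≤ q) (R : ℝ) {f : V → ℂ}
    (hf : Bd f) (G H : C(Sp V, ℂ)) : PX μ q hq R (G - H) ≤ PF μ q R f G + PF μ q R f H := by
  rw [PX_apply]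
  unfold PF
  rw [← ENNReal.toReal_add (nR_top μ q R _).ne (nR_top μ q R _).ne]
  refine ENNReal.toReal_mono (ENNReal.add_ne_top.2 ⟨(nR_top μ q R _).ne, (nR_top μ q R _).ne⟩) ?_
  have h1 : ex0 ((G - H : C(Sp V, ℂ)) : Sp V → ℂ) =
      (f + ex0 (G : Sp V → ℂ)) + -(f + ex0 (H : Sp V → ℂ)) := by
    rw [ContinuousMap.coe_sub, ex0_sub]
    abel
  rw [h1]
  have hb : Bd (-(f + ex0 (H : Sp V → ℂ))) := by
    have := (hf.add (ex0_bd H)).smul (-1)
    rwa [neg_one_smul] at this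
  refine (nR_add μ hq R (hf.add (ex0_bd G)) hb).trans ?_
  rw [nR_neg]

lemma PF_lip (μ : Measure V) [IsFiniteMeasure μ] (q : ℝ≥0∞) (hq : 1 ≤ q) (R : ℝ) {f : V → ℂ}
    (hf : Bd f) (G H : C(Sp V, ℂ)) : PF μ q R f G ≤ PF μ q R f H + PX μ q hq R (G - H) := by
  rw [PX_apply]
  unfold PF
  rw [← ENNReal.toReal_add (nR_top μ q R _).ne (nR_top μ q R _).ne]
  refine ENNReal.toReal_mono (ENNReal.add_ne_top.2 ⟨(nR_top μ q R _).ne, (nR_top μ q R _).ne⟩) ?_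
  have h1 : f + ex0 (G : Sp V → ℂ) =
      (f + ex0 (H : Sp V → ℂ)) + ex0 ((G - H : C(Sp V, ℂ)) : Sp V → ℂ) := by
    rw [ContinuousMap.coe_sub, ex0_sub]
    abel
  rw [h1]
  exact nR_add μ hq R (hf.add (ex0_bd H)) (ex0_bd _)

lemma PF_cont (μ : Measure V) [IsFiniteMeasure μ] (q : ℝ≥0∞) (hq : 1 ≤ q) (R : ℝ) {f : V → ℂ}
    (hf : Bd f) : Continuous (PF μ q R f) := by
  rw [continuous_iff_continuousAt]
  intro H
  rw [ContinuousAt, tendsto_iff_dist_tendsto_zero]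
  have h1 : Tendsto (fun G => PX μ q hq R (G - H)) (𝓝 H) (𝓝 0) := by
    have h2 : Continuous fun G => PX μ q hq R (G - H) :=
      (PX_cont μ q hq R).comp (continuous_id.sub continuous_const)
    have h3 := h2.tendsto H
    rwa [sub_self, map_zero] at h3
  refine squeeze_zero (fun G => dist_nonneg) (fun G => ?_) h1
  rw [Real.dist_eq, abs_le]
  have h4 := PF_lip μ q hq R hf G H
  have h5 := PF_lip μ q hq R hf H G
  have h6 : PX μ q hq R (H - G) = PX μ q hq R (G - H) := map_sub_rev _ _ _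
  rw [h6] at h5
  constructor <;> linarith

/-- The coefficients. -/
noncomputable def aa (i : ℕ) : ℝ := 1 / ((i : ℝ) + 2) ^ 2

lemma aa_nn (i : ℕ) : 0 ≤ aa i := by unfold aa; positivity

lemma aa_sum : Summable aa ∧ ∑' i, aa i ≤ 1 := by
  have h1 : ∀ K : ℕ, ∑ i ∈ Finset.range K, aa i ≤ 1 := by
    intro K
    unfold aa
    have h2 := sum_inv K
    rw [Fin.sum_univ_eq_sum_range (fun i : ℕ => (1 : ℝ) / ((i : ℝ) + 2) ^ 2) K] at h2
    have : (0 : ℝ) ≤ 1 / ((K : ℝ) + 1) := by positivity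
    linarith
  exact ⟨summable_of_sum_range_le aa_nn h1, Real.tsum_le_of_sum_range_le aa_nn h1⟩

/-- The pieces as densities. -/
noncomputable def yy (x : ℕ → V → ℝ) (hx : ∀ i, Continuous (x i)) (i : ℕ) : C(Sp V, ℂ) :=
  ⟨fun z => ((x i z : ℝ) : ℂ), by have := hx i; fun_prop⟩

lemma yy_norm (x : ℕ → V → ℝ) (hx : ∀ i, Continuous (x i)) (h0 : ∀ i z, 0 ≤ x i z)
    (h1 : ∀ i z, x i z ≤ 1) (i : ℕ) : ‖yy x hx i‖ ≤ 1 := by
  rw [ContinuousMap.norm_le _ zero_le_one]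
  intro z
  change ‖((x i z : ℝ) : ℂ)‖ ≤ 1
  rw [Complex.norm_real, Real.norm_eq_abs, abs_of_nonneg (h0 i z)]
  exact h1 i z

/-- The random function. -/
noncomputable def Hf (x : ℕ → V → ℝ) (t : Cu) (z : V) : ℝ := ∑' i, aa i * (t i : ℝ) * x i z

section
variable (x : ℕ → V → ℝ) (h0 : ∀ i z, 0 ≤ x i z) (h1 : ∀ i z, x i z ≤ 1)
include h0 h1

lemma Hf_term (t : Cu) (i : ℕ) (z : V) :
    0 ≤ aa i * (t i : ℝ) * x i z ∧ aa i * (t i : ℝ) * x i z ≤ aa i * x i z ∧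
    aa i * (t i : ℝ) * x i z ≤ aa i := by
  have ha := aa_nn i
  have ht0 := (t i).2.1
  have ht1 := (t i).2.2
  have hx0 := h0 i z
  have hx1 := h1 i z
  have h2 : aa i * (t i : ℝ) ≤ aa i := mul_le_of_le_one_right ha ht1
  have h3 : 0 ≤ aa i * (t i : ℝ) := mul_nonneg ha ht0
  have h4 : aa i * (t i : ℝ) * x i z ≤ aa i * x i z := mul_le_mul_of_nonneg_right h2 hx0
  exact ⟨mul_nonneg h3 hx0, h4, h4.trans (mul_le_of_le_one_right ha hx1)⟩

lemma Hf_summable (t : Cu) (z : V) : Summable fun i => aa i * (t i : ℝ) * x i z :=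
  Summable.of_nonneg_of_le (fun i => (Hf_term x h0 h1 t i z).1)
    (fun i => (Hf_term x h0 h1 t i z).2.2) aa_sum.1

lemma Hf_nn (t : Cu) (z : V) : 0 ≤ Hf x t z :=
  tsum_nonneg fun i => (Hf_term x h0 h1 t i z).1

lemma Hf_le (t : Cu) (z : V) (w : ℝ) (hw : 0 ≤ w) (hxw : ∀ i, x i z ≤ w) : Hf x t z ≤ w := by
  have h2 : Summable fun j => aa j * w := aa_sum.1.mul_right w
  unfold Hf
  refine ((Hf_summable x h0 h1 t z).tsum_le_tsum (g := fun j => aa j * w) (fun j => ?_) h2).trans ?_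
  · exact (Hf_term x h0 h1 t j z).2.1.trans (mul_le_mul_of_nonneg_left (hxw j) (aa_nn j))
  · rw [tsum_mul_right]
    have := aa_sum.2
    nlinarith

lemma Hf_cont (hx : ∀ i, Continuous (x i)) (t : Cu) : Continuous (Hf x t) := by
  unfold Hf
  refine continuous_tsum (fun i => continuous_const.mul (hx i)) aa_sum.1 fun i z => ?_
  rw [Real.norm_eq_abs, abs_of_nonneg (Hf_term x h0 h1 t i z).1]
  exact (Hf_term x h0 h1 t i z).2.2

lemma Hf_smooth (hx : ∀ i, ContDiff ℝ ∞ (x i)) (p : V)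
    (hloc : ∀ x0, x0 ≠ p → ∃ δ : ℝ, 0 < δ ∧ ∃ i0 : ℕ, ∀ i, i0 ≤ i → ∀ z ∈ ball x0 δ, x i z = 0)
    (t : Cu) : ContDiffOn ℝ ∞ (Hf x t) {p}ᶜ := by
  intro x0 hx0p
  refine ContDiffAt.contDiffWithinAt ?_
  obtain ⟨δ, hδ, i0, hi0⟩ := hloc x0 hx0p
  have hz : ∀ z ∈ ball x0 δ, Hf x t z = ∑ j ∈ Finset.range i0, aa j * (t j : ℝ) * x j z := by
    intro z hz
    refine tsum_eq_sum fun j hj => ?_
    rw [Finset.mem_range, not_lt] at hj
    rw [hi0 j hj z hz, mul_zero]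
  have hcd : ContDiffAt ℝ ∞
      (fun z => ∑ j ∈ Finset.range i0, aa j * (t j : ℝ) * x j z) x0 :=
    (ContDiff.sum fun j _ => contDiff_const.mul (hx j)).contDiffAt
  exact hcd.congr_of_eventuallyEq (eventually_of_mem (ball_mem_nhds x0 hδ) hz)

lemma rs_apply (hx : ∀ i, Continuous (x i)) (t : Cu) (z : Sp V) :
    rs aa (yy x hx) t z = ((Hf x t z : ℝ) : ℂ) := by
  have h2 := (rs_summable aa_nn aa_sum.1 (yy_norm x hx h0 h1) t).hasSum.mapL
    (ContinuousMap.evalCLM ℝ z : C(Sp V, ℂ) →L[ℝ] ℂ)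
  have h3 : (rs aa (yy x hx) t) z = ∑' i, (aa i * (t i : ℝ)) • (yy x hx i) z := h2.tsum_eq.symm
  rw [h3]
  unfold Hf
  rw [Complex.ofReal_tsum]
  refine tsum_congr fun i => ?_
  change ((aa i * (t i : ℝ) : ℝ)) • ((x i z : ℝ) : ℂ) = _
  rw [Complex.real_smul]
  push_cast
  ring

/-- **Almost every random density is almost extremal for the tasks.** -/
theorem ae_tasks (μ : Measure V) [IsFiniteMeasure μ] (hsph : ∀ᵐ x ∂μ, ‖x‖ = 1)
    (hx : ∀ i, Continuous (x i)) (q : ℕ → ℝ≥0∞) (hq : ∀ i, 1 ≤ q i) (R : ℕ → ℝ) (K : ℝ)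
    (hK : 0 < K) (hpc : ∀ (i : ℕ) (g : V → ℂ), Measurable g → (∀ x, ‖g x‖ ≤ 1) →
        nR μ (q i) (R i) g ≤ ENNReal.ofReal (K * ((i : ℝ) + 1)) *
          nR μ (q i) (R i) (fun z => (x i z : ℂ))) (f : V → ℂ) (hf : Bd f) :
    ∀ᵐ t ∂PP, ∃ C : ℝ, 0 < C ∧ ∀ (i : ℕ) (g : V → ℂ), Measurable g → (∀ x, ‖g x‖ ≤ 1) →
      (nR μ (q i) (R i) g).toReal ≤ C * ((i : ℝ) + 2) ^ 5 *
        PF μ (q i) (R i) f (rs aa (yy x hx) t) := by
  have hmain := condense_ae (x := yy x hx) (M := 1) aa_nn aa_sum.1 (yy_norm x hx h0 h1)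
    (fun i => PX μ (q i) (hq i) (R i)) (fun i => PF μ (q i) (R i) f)
    (fun i => PF_cont μ (q i) (hq i) (R i) hf) (fun i u => ENNReal.toReal_nonneg)
    (fun i u v => PF_sub μ (q i) (hq i) (R i) hf u v)
  filter_upwards [hmain] with t ht
  obtain ⟨C, hC, hCi⟩ := ht
  refine ⟨K * C, by positivity, fun i g hg hg1 => ?_⟩
  have h2 : PX μ (q i) (hq i) (R i) (yy x hx i) =
      (nR μ (q i) (R i) (fun z => (x i z : ℂ))).toReal := by
    rw [PX_apply]
    congr 1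
    refine nR_congr μ _ _ ?_
    filter_upwards [hsph] with z hz
    have hz' : z ∈ sphere (0 : V) 1 := by simpa using hz
    exact ex0_of _ (⟨z, hz'⟩ : Sp V)
  have h3 := hCi i
  rw [h2] at h3
  have h4 := ENNReal.toReal_mono (ENNReal.mul_ne_top ENNReal.ofReal_ne_top
    (nR_top μ (q i) (R i) _).ne) (hpc i g hg hg1)
  rw [ENNReal.toReal_mul, ENNReal.toReal_ofReal (by positivity)] at h4
  set X := (nR μ (q i) (R i) (fun z => (x i z : ℂ))).toReal with hX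
  set Y := PF μ (q i) (R i) f (rs aa (yy x hx) t) with hY
  have hY0 : 0 ≤ Y := ENNReal.toReal_nonneg
  have h5 : X ≤ C * ((i : ℝ) + 2) ^ 4 * Y := by
    unfold aa at h3
    rw [one_div, inv_mul_le_iff₀ (by positivity)] at h3
    calc X ≤ _ := h3
      _ = _ := by ring
  have h6 : (0 : ℝ) ≤ i := Nat.cast_nonneg i
  calc (nR μ (q i) (R i) g).toReal ≤ K * ((i : ℝ) + 1) * X := h4
    _ ≤ K * ((i : ℝ) + 1) * (C * ((i : ℝ) + 2) ^ 4 * Y) :=
        mul_le_mul_of_nonneg_left h5 (by positivity)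
    _ ≤ K * ((i : ℝ) + 2) * (C * ((i : ℝ) + 2) ^ 4 * Y) := by
        refine mul_le_mul_of_nonneg_right ?_ (by positivity)
        nlinarith
    _ = _ := by ring

end

end Pool.Agent.Q193.RD
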